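import Mathlib

/-! The pointwise broad and narrow dichotomy. -/

namespace Pool.Agent.Lib.SCX

open Finset

/-- Increasing `D`-tuples in `range K` with gaps at least two. -/
def Sep (K D : ℕ) : Finset (Fin D → ℕ) :=
  (Fintype.piFinset fun _ => range K).filter fun α => ∀ i j, i < j → α i + 2 ≤ α j

theorem mem_Sep {K D : ℕ} {α : Fin D → ℕ} :
    α ∈ Sep K D ↔ (∀ i, α i < K) ∧ ∀ i j, i < j → α i + 2 ≤ α j := by
  simp [Sep]

theorem card_Sep (K D : ℕ) : (Sep K D).card ≤ K ^ D := by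
  refine (card_filter_le _ _).trans ?_
  simp

theorem exists_sep (K D : ℕ) (T : Finset ℕ) (hT : T ⊆ range K) (hc : 2 * D ≤ T.card) :
    ∃ α ∈ Sep K D, ∀ i, α i ∈ T := by
  let f := T.orderEmbOfFin rfl
  have hlt : ∀ i : Fin D, 2 * i.val + 1 < T.card := fun i => by have := i.2; omega
  refine ⟨fun i => f ⟨2 * i.val, by have := hlt i; omega⟩, mem_Sep.2 ⟨fun i => ?_, ?_⟩,
    fun i => orderEmbOfFin_mem T rfl _⟩
  · exact mem_range.1 (hT (orderEmbOfFin_mem T rfl _))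
  · intro i j hij
    have hij' : i.val < j.val := hij
    have a : f ⟨2 * i.val, by have := hlt i; omega⟩ < f ⟨2 * i.val + 1, hlt i⟩ :=
      f.strictMono (Fin.mk_lt_mk.2 (by omega))
    have b : f ⟨2 * i.val + 1, hlt i⟩ < f ⟨2 * j.val, by have := hlt j; omega⟩ :=
      f.strictMono (Fin.mk_lt_mk.2 (by omega))
    omega

/-- Either a few terms dominate or `D` separated terms are all large. -/
theorem bn_dich (K D : ℕ) (hK : 1 ≤ K) (z : ℕ → ℂ) :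
    (∃ a ∈ range K, ‖∑ b ∈ range K, z b‖ ≤ (2 * D + 1) * ‖z a‖) ∨
      ∃ α ∈ Sep K D, ∀ i, ‖∑ b ∈ range K, z b‖ ≤ (K : ℝ) ^ 2 * ‖z (α i)‖ := by
  obtain ⟨a, ha, hmax⟩ := exists_max_image (range K) (fun b => ‖z b‖) ⟨0, mem_range.2 hK⟩
  have hK0 : (0 : ℝ) < K := by exact_mod_cast hK
  have hM := norm_nonneg (z a)
  set T := (range K).filter fun b => ‖z a‖ ≤ K * ‖z b‖ with hT
  by_cases hc : 2 * D ≤ T.card
  · right
    obtain ⟨α, hα, hαT⟩ := exists_sep K D T (filter_subset _ _) hc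
    refine ⟨α, hα, fun i => ?_⟩
    have h1 := (mem_filter.1 (hαT i)).2
    calc ‖∑ b ∈ range K, z b‖ ≤ ∑ b ∈ range K, ‖z b‖ := norm_sum_le _ _
      _ ≤ ∑ _b ∈ range K, ‖z a‖ := sum_le_sum hmax
      _ = K * ‖z a‖ := by simp
      _ ≤ K * (K * ‖z (α i)‖) := by gcongr
      _ = _ := by ring
  · left
    refine ⟨a, ha, ?_⟩
    have hc' : (T.card : ℝ) ≤ 2 * D := by exact_mod_cast (not_le.1 hc).le
    calc ‖∑ b ∈ range K, z b‖ ≤ ∑ b ∈ range K, ‖z b‖ := norm_sum_le _ _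
      _ ≤ ∑ b ∈ range K, ((if ‖z a‖ ≤ K * ‖z b‖ then ‖z a‖ else 0) + ‖z a‖ / K) := by
          refine sum_le_sum fun b hb => ?_
          split_ifs with h
          · have := hmax b hb
            have : 0 ≤ ‖z a‖ / K := by positivity
            linarith
          · rw [zero_add, le_div_iff₀ hK0]
            linarith [not_le.1 h]
      _ = T.card * ‖z a‖ + ‖z a‖ := by
          rw [sum_add_distrib, ← sum_filter, sum_const, sum_const, card_range, nsmul_eq_mul,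
            nsmul_eq_mul, ← hT]
          field_simp
      _ ≤ (2 * D + 1) * ‖z a‖ := by nlinarith

theorem broad_pow {D : ℕ} (hD : 1 ≤ D) (x p : ℝ) (hx : 0 ≤ x) (hp : 0 ≤ p) (A : ℝ) (hA : 0 ≤ A)
    (y : Fin D → ℝ) (hy : ∀ i, 0 ≤ y i) (h : ∀ i, x ≤ A * y i) :
    x ^ p ≤ A ^ p * ∏ i, y i ^ (p / D) := by
  have hD0 : (0 : ℝ) < D := by exact_mod_cast hD
  have e : ∀ u : ℝ, 0 ≤ u → u ^ p = ∏ _i : Fin D, u ^ (p / D) := by
    intro u hu
    rw [prod_const, card_univ, Fintype.card_fin, ← Real.rpow_natCast, ← Real.rpow_mul hu]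
    congr 1
    field_simp
  rw [e x hx, e A hA, ← prod_mul_distrib]
  refine prod_le_prod (fun i _ => by positivity) fun i _ => ?_
  rw [← Real.mul_rpow hA (hy i)]
  exact Real.rpow_le_rpow hx (h i) (by positivity)

/-- The broad and narrow inequality. -/
theorem bn_rpow (K D : ℕ) (hK : 1 ≤ K) (hD : 1 ≤ D) (z : ℕ → ℂ) (p : ℝ) (hp : 0 ≤ p) :
    ‖∑ b ∈ range K, z b‖ ^ p ≤ (2 * D + 1 : ℝ) ^ p * ∑ a ∈ range K, ‖z a‖ ^ p +
      ((K : ℝ) ^ 2) ^ p * ∑ α ∈ Sep K D, ∏ i, ‖z (α i)‖ ^ (p / D) := by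
  have h1 : (0 : ℝ) ≤ (2 * D + 1 : ℝ) ^ p * ∑ a ∈ range K, ‖z a‖ ^ p := by positivity
  have h2 : (0 : ℝ) ≤ ((K : ℝ) ^ 2) ^ p * ∑ α ∈ Sep K D, ∏ i, ‖z (α i)‖ ^ (p / D) := by
    positivity
  rcases bn_dich K D hK z with ⟨a, ha, h⟩ | ⟨α, hα, h⟩
  · refine le_add_of_le_of_nonneg ?_ h2
    calc _ ≤ ((2 * D + 1 : ℝ) * ‖z a‖) ^ p := Real.rpow_le_rpow (norm_nonneg _) h hp
      _ = (2 * D + 1 : ℝ) ^ p * ‖z a‖ ^ p := Real.mul_rpow (by positivity) (norm_nonneg _)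
      _ ≤ _ := by
          gcongr
          exact single_le_sum (f := fun a => ‖z a‖ ^ p) (fun _ _ => by positivity) ha
  · refine le_add_of_nonneg_of_le h1 ?_
    calc _ ≤ ((K : ℝ) ^ 2) ^ p * ∏ i, ‖z (α i)‖ ^ (p / D) :=
          broad_pow hD _ p (norm_nonneg _) hp _ (by positivity) _ (fun _ => norm_nonneg _) h
      _ ≤ _ := by
          gcongr
          exact single_le_sum (f := fun α : Fin D → ℕ => ∏ i, ‖z (α i)‖ ^ (p / D))
            (fun _ _ => by positivity) hα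

/-- The broad and narrow inequality for the floored square. -/
theorem bn_floor (K D : ℕ) (hK : 1 ≤ K) (hD : 1 ≤ D) (z : ℕ → ℂ) (p : ℝ) (hp : 0 ≤ p) :
    (1 + ‖∑ b ∈ range K, z b‖ ^ 2) ^ (p / 2) ≤
      (2 * D + 1 : ℝ) ^ p * ∑ a ∈ range K, (1 + ‖z a‖ ^ 2) ^ (p / 2) +
      (2 * (K : ℝ) ^ 2) ^ p * ∑ α ∈ Sep K D, ∏ i, ‖z (α i)‖ ^ (p / D) := by
  have hD1 : (1 : ℝ) ≤ D := by exact_mod_cast hD
  have h2 : (0 : ℝ) ≤ (2 * (K : ℝ) ^ 2) ^ p * ∑ α ∈ Sep K D, ∏ i, ‖z (α i)‖ ^ (p / D) := by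
    positivity
  have h1 : (0 : ℝ) ≤ (2 * D + 1 : ℝ) ^ p * ∑ a ∈ range K, (1 + ‖z a‖ ^ 2) ^ (p / 2) := by
    positivity
  have sq : ∀ u : ℝ, 0 ≤ u → (u ^ 2) ^ (p / 2) = u ^ p := by
    intro u hu
    rw [← Real.rpow_natCast, ← Real.rpow_mul hu]
    congr 1
    push_cast
    ring
  have nar : ∀ a ∈ range K, 1 + ‖∑ b ∈ range K, z b‖ ^ 2 ≤ (2 * D + 1) ^ 2 * (1 + ‖z a‖ ^ 2) →
      (1 + ‖∑ b ∈ range K, z b‖ ^ 2) ^ (p / 2) ≤
        (2 * D + 1 : ℝ) ^ p * ∑ a ∈ range K, (1 + ‖z a‖ ^ 2) ^ (p / 2) := by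
    intro a ha h
    calc _ ≤ ((2 * D + 1 : ℝ) ^ 2 * (1 + ‖z a‖ ^ 2)) ^ (p / 2) :=
          Real.rpow_le_rpow (by positivity) h (by positivity)
      _ = (2 * D + 1 : ℝ) ^ p * (1 + ‖z a‖ ^ 2) ^ (p / 2) := by
          rw [Real.mul_rpow (by positivity) (by positivity), sq _ (by positivity)]
      _ ≤ _ := by
          gcongr
          exact single_le_sum (f := fun a => (1 + ‖z a‖ ^ 2) ^ (p / 2))
            (fun _ _ => by positivity) ha
  have hn := norm_nonneg (∑ b ∈ range K, z b)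
  by_cases hs : ‖∑ b ∈ range K, z b‖ ≤ 1
  · refine le_add_of_le_of_nonneg (nar 0 (mem_range.2 hK) ?_) h2
    have a1 : ‖∑ b ∈ range K, z b‖ ^ 2 ≤ 1 := pow_le_one₀ hn hs
    have a2 : (9 : ℝ) ≤ (2 * D + 1) ^ 2 := by nlinarith
    nlinarith [sq_nonneg ‖z 0‖]
  rcases bn_dich K D hK z with ⟨a, ha, h⟩ | ⟨α, hα, h⟩
  · refine le_add_of_le_of_nonneg (nar a ha ?_) h2
    have a1 : ‖∑ b ∈ range K, z b‖ ^ 2 ≤ ((2 * D + 1) * ‖z a‖) ^ 2 := by gcongr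
    have a2 : (1 : ℝ) ≤ (2 * D + 1) ^ 2 := by nlinarith
    nlinarith
  · refine le_add_of_nonneg_of_le h1 ?_
    have hs' := (not_le.1 hs).le
    calc _ ≤ ((2 * ‖∑ b ∈ range K, z b‖) ^ 2) ^ (p / 2) :=
          Real.rpow_le_rpow (by positivity) (by nlinarith) (by positivity)
      _ = (2 * ‖∑ b ∈ range K, z b‖) ^ p := sq _ (by positivity)
      _ ≤ (2 * (K : ℝ) ^ 2) ^ p * ∏ i, ‖z (α i)‖ ^ (p / D) :=
          broad_pow hD _ p (by positivity) hp _ (by positivity) _ (fun _ => norm_nonneg _)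
            fun i => by have := h i; linarith
      _ ≤ _ := by
          gcongr
          exact single_le_sum (f := fun α : Fin D → ℕ => ∏ i, ‖z (α i)‖ ^ (p / D))
            (fun _ _ => by positivity) hα

end Pool.Agent.Lib.SCX
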