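import Mathlib

/-! A frame adapted to a finite family of linear functionals. -/

namespace Pool.Agent.Lib.SCX

open Finset Matrix

theorem exists_det_ne_zero {d : ℕ} {ι : Type} (lam : ι → Fin d → ℚ)
    (hinj : ∀ P : Fin d → ℚ, (∀ t, lam t ⬝ᵥ P = 0) → P = 0) :
    ∃ σ : Fin d → ι, (Matrix.of fun i => lam (σ i)).det ≠ 0 := by
  classical
  have hspan : ⊤ ≤ Submodule.span ℚ (Set.range lam) := by
    by_contra hne
    have hlt : Submodule.span ℚ (Set.range lam) < ⊤ := lt_top_iff_ne_top.2 fun h => hne h.ge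
    obtain ⟨φ, hφ, hker⟩ := Submodule.exists_le_ker_of_lt_top _ hlt
    apply hφ
    have key : ∀ v : Fin d → ℚ, φ v = v ⬝ᵥ fun j => φ (Pi.single j 1) := by
      intro v
      conv_lhs => rw [pi_eq_sum_univ' v]
      simp [map_sum, dotProduct]
    have h0 := hinj (fun j => φ (Pi.single j 1)) fun t => by
      rw [← key]
      exact hker (Submodule.subset_span ⟨t, rfl⟩)
    ext j
    simpa using congrFun h0 j
  obtain ⟨b, hb, hbs, hli⟩ := exists_linearIndependent ℚ (Set.range lam)
  let B : Module.Basis b ℚ (Fin d → ℚ) := Module.Basis.mk hli (by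
    rw [Subtype.range_coe_subtype, Set.ofPred_mem_eq, hbs]
    exact hspan)
  let e : Fin d ≃ b := (Pi.basisFun ℚ (Fin d)).indexEquiv B
  have hch : ∀ i : Fin d, ∃ t, lam t = (e i : Fin d → ℚ) := fun i => hb (e i).2
  choose σ hσ using hch
  refine ⟨σ, ?_⟩
  have hl : LinearIndependent ℚ (Matrix.of fun i => lam (σ i)).row := by
    have := hli.comp e e.injective
    have e2 : (Matrix.of fun i => lam (σ i)).row = Subtype.val ∘ e := by
      funext i
      exact hσ i
    rw [e2]
    exact this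
  have := Matrix.linearIndependent_rows_iff_isUnit.1 hl
  exact ((Matrix.isUnit_iff_isUnit_det _).1 this).ne_zero

/-- A basis on which every functional of the family has size at most one, whose coordinates
are members of the family. -/
theorem frame {d : ℕ} {ι : Type} [Fintype ι] (lam : ι → Fin d → ℚ)
    (hinj : ∀ P : Fin d → ℚ, (∀ t, lam t ⬝ᵥ P = 0) → P = 0) :
    ∃ (e : Fin d → Fin d → ℚ) (σ : Fin d → ι), (∀ t i, |∑ j, lam t j * e i j| ≤ 1) ∧
      ∀ (P : Fin d → ℝ) (j : Fin d),
        P j = ∑ i, (∑ a, (lam (σ i) a : ℝ) * P a) * (e i j : ℝ) := by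
  classical
  obtain ⟨σ₀, h₀⟩ := exists_det_ne_zero lam hinj
  obtain ⟨σ, -, hmax⟩ := exists_max_image (univ : Finset (Fin d → ι))
    (fun σ => |(Matrix.of fun i => lam (σ i)).det|) ⟨σ₀, mem_univ _⟩
  set A : Matrix (Fin d) (Fin d) ℚ := Matrix.of fun i => lam (σ i) with hA
  have hpos : 0 < |A.det| := (abs_pos.2 h₀).trans_le (hmax σ₀ (mem_univ _))
  have hdet : IsUnit A.det := (abs_pos.1 hpos).isUnit
  refine ⟨fun i j => A⁻¹ j i, σ, fun t i => ?_, fun P j => ?_⟩
  · have h1 := congrFun (Matrix.det_smul_inv_vecMul_eq_cramer_transpose A (lam t) hdet) i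
    rw [Matrix.cramer_transpose_apply] at h1
    have h2 : A.updateRow i (lam t) = Matrix.of fun a => lam (Function.update σ i t a) := by
      ext a b
      by_cases h : a = i
      · subst h
        simp
      · simp [Matrix.updateRow_ne h, hA, Function.update_of_ne h]
    have h3 := hmax (Function.update σ i t) (mem_univ _)
    rw [← h2, ← h1] at h3
    have h4 : (A.det • lam t ᵥ* A⁻¹) i = A.det * ∑ j, lam t j * A⁻¹ j i := by
      simp [Matrix.vecMul, dotProduct]
    rw [h4, abs_mul] at h3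
    exact le_of_mul_le_mul_left (by simpa using h3) hpos
  · have h1 : ∀ a, ∑ i, A⁻¹ j i * lam (σ i) a = if j = a then 1 else 0 := by
      intro a
      have := congrFun (congrFun (Matrix.nonsing_inv_mul A hdet) j) a
      rw [Matrix.mul_apply, Matrix.one_apply] at this
      exact this
    have h2 : ∀ a, ∑ i, (A⁻¹ j i : ℝ) * (lam (σ i) a : ℝ) = if j = a then 1 else 0 := by
      intro a
      have := congrArg (fun q : ℚ => (q : ℝ)) (h1 a)
      simp only [Rat.cast_sum, Rat.cast_mul] at this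
      rw [this]
      split_ifs <;> simp
    calc P j = ∑ a, (if j = a then 1 else 0) * P a := by simp
      _ = ∑ a, (∑ i, (A⁻¹ j i : ℝ) * (lam (σ i) a : ℝ)) * P a := by simp only [h2]
      _ = _ := by
          simp only [sum_mul]
          rw [sum_comm]
          refine sum_congr rfl fun i _ => sum_congr rfl fun a _ => ?_
          ring

/-- The frame in terms of the norm `∑ t, |lam t P|`. -/
theorem frame_norm {d : ℕ} {ι : Type} [Fintype ι] (lam : ι → Fin d → ℚ)
    (hinj : ∀ P : Fin d → ℚ, (∀ t, lam t ⬝ᵥ P = 0) → P = 0) :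
    ∃ e : Fin d → Fin d → ℚ,
      (∀ i, ∑ t, |∑ j, (lam t j : ℝ) * (e i j : ℝ)| ≤ Fintype.card ι) ∧
      ∀ P : Fin d → ℝ, ∃ u : Fin d → ℝ, (∀ i, |u i| ≤ ∑ t, |∑ j, (lam t j : ℝ) * P j|) ∧
        ∀ j, P j = ∑ i, u i * (e i j : ℝ) := by
  obtain ⟨e, σ, h1, h2⟩ := frame lam hinj
  refine ⟨e, fun i => ?_, fun P => ⟨fun i => ∑ a, (lam (σ i) a : ℝ) * P a, fun i => ?_, h2 P⟩⟩
  · calc _ ≤ ∑ _t : ι, (1 : ℝ) := by
          refine sum_le_sum fun t _ => ?_
          exact_mod_cast h1 t i
      _ = _ := by simp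
  · exact single_le_sum (f := fun t => |∑ j, (lam t j : ℝ) * P j|) (fun _ _ => abs_nonneg _)
      (mem_univ (σ i))

end Pool.Agent.Lib.SCX
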