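import Mathlib

/-! Points in separated intervals are determined, with a quantitative bound, by power sums. -/

namespace Pool.Agent.Lib.SCX

open Finset MeasureTheory

namespace Mult

/-- The factor attached to the gap after the interval `j`. -/
noncomputable def fac (e lo : ℕ → ℝ) (g : ℝ) (j : ℕ) (s : ℝ) : ℝ :=
  if e j = e (j + 1) then 1 else lo j + 3 / 2 * g - s

theorem fac_cont (e lo : ℕ → ℝ) (g : ℝ) (j : ℕ) : Continuous (fac e lo g j) := by
  unfold fac
  split_ifs
  · exact continuous_const
  · exact continuous_const.sub continuous_id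

theorem prod_cont (e lo : ℕ → ℝ) (g : ℝ) (k n : ℕ) :
    Continuous fun s : ℝ => s ^ k * ∏ j ∈ range n, fac e lo g j s :=
  (continuous_id.pow k).mul (continuous_finsetProd _ fun j _ => fac_cont e lo g j)

theorem upper (D : ℕ) (t t' e lo : ℕ → ℝ) (g E : ℝ) (hE : 0 ≤ E)
    (hlo : ∀ j, j < D → |lo j + 3 / 2 * g| ≤ 3)
    (h : ∀ m, 1 ≤ m → m ≤ D → |∑ i ∈ range D, (t i ^ m - t' i ^ m)| ≤ E) :
    ∀ n k, k + n + 1 ≤ D →
      |∑ i ∈ range D, ∫ s in t' i..t i, s ^ k * ∏ j ∈ range n, fac e lo g j s| ≤ 4 ^ n * E := by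
  intro n
  induction n with
  | zero =>
    intro k hk
    have h1 := h (k + 1) (by omega) (by omega)
    have h2 : ∑ i ∈ range D, ∫ s in t' i..t i, s ^ k * ∏ j ∈ range 0, fac e lo g j s
        = (∑ i ∈ range D, (t i ^ (k + 1) - t' i ^ (k + 1))) / ((k : ℝ) + 1) := by
      rw [sum_div]
      refine sum_congr rfl fun i _ => ?_
      simp [integral_pow]
    rw [h2, abs_div, abs_of_pos (by positivity : (0 : ℝ) < (k : ℝ) + 1), pow_zero, one_mul]
    calc _ ≤ E / ((k : ℝ) + 1) := by gcongr
      _ ≤ E := div_le_self hE (by linarith [(Nat.cast_nonneg k : (0 : ℝ) ≤ k)])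
  | succ n ih =>
    intro k hk
    have h4 : (0 : ℝ) ≤ 4 ^ n * E := by positivity
    by_cases hc : e n = e (n + 1)
    · have h2 : ∀ s : ℝ, s ^ k * ∏ j ∈ range (n + 1), fac e lo g j s
          = s ^ k * ∏ j ∈ range n, fac e lo g j s := by
        intro s
        rw [prod_range_succ]
        simp [fac, hc]
      simp only [h2]
      calc _ ≤ 4 ^ n * E := ih k (by omega)
        _ ≤ 4 ^ (n + 1) * E := by rw [pow_succ]; nlinarith
    · have h2 : ∀ s : ℝ, s ^ k * ∏ j ∈ range (n + 1), fac e lo g j s
          = (lo n + 3 / 2 * g) * (s ^ k * ∏ j ∈ range n, fac e lo g j s)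
            - s ^ (k + 1) * ∏ j ∈ range n, fac e lo g j s := by
        intro s
        rw [prod_range_succ]
        simp only [fac, hc, if_false]
        ring
      have h3 : ∑ i ∈ range D, ∫ s in t' i..t i, s ^ k * ∏ j ∈ range (n + 1), fac e lo g j s
          = (lo n + 3 / 2 * g) *
              (∑ i ∈ range D, ∫ s in t' i..t i, s ^ k * ∏ j ∈ range n, fac e lo g j s)
            - ∑ i ∈ range D, ∫ s in t' i..t i, s ^ (k + 1) * ∏ j ∈ range n, fac e lo g j s := by
        rw [mul_sum, ← sum_sub_distrib]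
        refine sum_congr rfl fun i _ => ?_
        simp only [h2]
        rw [intervalIntegral.integral_sub, intervalIntegral.integral_const_mul]
        · exact (continuous_const.mul (prod_cont e lo g k n)).intervalIntegrable _ _
        · exact (prod_cont e lo g (k + 1) n).intervalIntegrable _ _
      rw [h3]
      have a1 := ih k (by omega)
      have a2 := ih (k + 1) (by omega)
      have a3 := hlo n (by omega)
      calc _ ≤ |(lo n + 3 / 2 * g) *
              (∑ i ∈ range D, ∫ s in t' i..t i, s ^ k * ∏ j ∈ range n, fac e lo g j s)|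
            + |∑ i ∈ range D, ∫ s in t' i..t i,
              s ^ (k + 1) * ∏ j ∈ range n, fac e lo g j s| := abs_sub _ _
        _ ≤ 3 * (4 ^ n * E) + 4 ^ n * E := by
            rw [abs_mul]
            gcongr
        _ = 4 ^ (n + 1) * E := by ring

theorem lower (D : ℕ) (e lo : ℕ → ℝ) (g : ℝ) (hg : 0 < g) (hg1 : g ≤ 1)
    (he : ∀ j, e j = 1 ∨ e j = -1)
    (hsep : ∀ i j, i < j → j < D → lo i + 2 * g ≤ lo j) (i : ℕ) (hi : i < D) (s : ℝ)
    (h1 : lo i ≤ s) (h2 : s ≤ lo i + g) :
    ∀ n, n ≤ D → (g / 2) ^ n ≤ e 0 * e (min i n) * ∏ j ∈ range n, fac e lo g j s := by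
  intro n
  induction n with
  | zero =>
    intro _
    rcases he 0 with h | h <;> simp [h]
  | succ n ih =>
    intro hn
    have a := ih (by omega)
    have hp : (0 : ℝ) ≤ (g / 2) ^ n := by positivity
    rw [prod_range_succ, pow_succ]
    have key : ∃ u : ℝ, g / 2 ≤ u ∧ e (min i (n + 1)) * fac e lo g n s = e (min i n) * u := by
      by_cases hin : i ≤ n
      · rw [min_eq_left hin, min_eq_left (by omega : i ≤ n + 1)]
        refine ⟨fac e lo g n s, ?_, rfl⟩
        unfold fac
        split_ifs
        · linarith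
        · rcases Nat.lt_or_eq_of_le hin with h | h
          · have := hsep i n h (by omega)
            linarith
          · subst h
            linarith
      · have hn' : n < i := by omega
        rw [min_eq_right (by omega : n + 1 ≤ i), min_eq_right hn'.le]
        unfold fac
        split_ifs with hc
        · exact ⟨1, by linarith, by rw [hc]⟩
        · have := hsep n i hn' hi
          refine ⟨s - (lo n + 3 / 2 * g), by linarith, ?_⟩
          rcases he n with h | h <;> rcases he (n + 1) with h' | h'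
          · exact absurd (h.trans h'.symm) hc
          · rw [h, h']; ring
          · rw [h, h']; ring
          · exact absurd (h.trans h'.symm) hc
    obtain ⟨u, hu, hu'⟩ := key
    calc (g / 2) ^ n * (g / 2)
        ≤ (e 0 * e (min i n) * ∏ j ∈ range n, fac e lo g j s) * u :=
          mul_le_mul a hu (by positivity) (hp.trans a)
      _ = e 0 * (e (min i n) * u) * ∏ j ∈ range n, fac e lo g j s := by ring
      _ = _ := by rw [← hu']; ring

end Mult

open Mult in
/-- Points in intervals of length `g` separated by gaps of length `g` are determined by their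
power sums. -/
theorem mult_nat (D : ℕ) (hD : 1 ≤ D) (t t' lo : ℕ → ℝ) (g E : ℝ) (hg : 0 < g) (hg1 : g ≤ 1)
    (hlo : ∀ j, j < D → |lo j| ≤ 1)
    (hsep : ∀ i j, i < j → j < D → lo i + 2 * g ≤ lo j)
    (ht : ∀ i, i < D → lo i ≤ t i ∧ t i ≤ lo i + g)
    (ht' : ∀ i, i < D → lo i ≤ t' i ∧ t' i ≤ lo i + g)
    (h : ∀ m, 1 ≤ m → m ≤ D → |∑ i ∈ range D, (t i ^ m - t' i ^ m)| ≤ E) :
    ∑ i ∈ range D, |t i - t' i| ≤ (8 / g) ^ (D - 1) * E := by
  have hE : 0 ≤ E := (abs_nonneg _).trans (h 1 le_rfl hD)
  set e : ℕ → ℝ := fun i => if t' i ≤ t i then 1 else -1 with he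
  have he1 : ∀ j, e j = 1 ∨ e j = -1 := by
    intro j
    simp only [he]
    split_ifs <;> simp
  have hup := upper D t t' e lo g E hE (fun j hj => by
    have := abs_le.1 (hlo j hj)
    rw [abs_le]
    constructor <;> linarith) h (D - 1) 0 (by omega)
  have hlow : ∀ i ∈ range D, (g / 2) ^ (D - 1) * |t i - t' i| ≤
      e 0 * ∫ s in t' i..t i, s ^ 0 * ∏ j ∈ range (D - 1), fac e lo g j s := by
    intro i hi
    have hi' := mem_range.1 hi
    have hl := fun s h1 h2 => lower D e lo g hg hg1 he1 hsep i hi' s h1 h2 (D - 1) (by omega)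
    rw [min_eq_left (by omega : i ≤ D - 1)] at hl
    have hc := prod_cont e lo g 0 (D - 1)
    rw [← intervalIntegral.integral_const_mul]
    by_cases hle : t' i ≤ t i
    · have e1 : e i = 1 := by simp [he, hle]
      rw [abs_of_nonneg (by linarith)]
      have := intervalIntegral.integral_mono_on (μ := volume) hle
        (f := fun _ => (g / 2) ^ (D - 1))
        (g := fun s => e 0 * (s ^ 0 * ∏ j ∈ range (D - 1), fac e lo g j s))
        (continuous_const.intervalIntegrable _ _)
        ((continuous_const.mul hc).intervalIntegrable _ _) (fun s hs => by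
          have := hl s (by linarith [hs.1, (ht' i hi').1]) (by linarith [hs.2, (ht i hi').2])
          rw [e1] at this
          simpa using this)
      simpa [mul_comm] using this
    · have e1 : e i = -1 := by simp [he, hle]
      have hle' : t i ≤ t' i := (not_le.1 hle).le
      rw [abs_of_nonpos (by linarith), intervalIntegral.integral_symm,
        ← intervalIntegral.integral_neg]
      have := intervalIntegral.integral_mono_on (μ := volume) hle'
        (f := fun _ => (g / 2) ^ (D - 1))
        (g := fun s => -(e 0 * (s ^ 0 * ∏ j ∈ range (D - 1), fac e lo g j s)))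
        (continuous_const.intervalIntegrable _ _)
        ((continuous_const.mul hc).neg.intervalIntegrable _ _) (fun s hs => by
          have := hl s (by linarith [hs.1, (ht i hi').1]) (by linarith [hs.2, (ht' i hi').2])
          rw [e1] at this
          simpa using this)
      simpa [mul_comm] using this
  have hsum := sum_le_sum hlow
  rw [← mul_sum, ← mul_sum] at hsum
  have habs : ∀ y : ℝ, e 0 * y ≤ |y| := by
    intro y
    rcases he1 0 with h0 | h0 <;> rw [h0]
    · simpa using le_abs_self y
    · simpa using neg_le_abs y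
  have h5 := hsum.trans ((habs _).trans hup)
  have hp : (0 : ℝ) < (g / 2) ^ (D - 1) := by positivity
  have h6 : (8 / g) ^ (D - 1) * E * (g / 2) ^ (D - 1) = 4 ^ (D - 1) * E := by
    rw [mul_right_comm, ← mul_pow]
    congr 2
    field_simp
    norm_num
  refine le_of_mul_le_mul_left ?_ hp
  rw [mul_comm _ ((8 / g) ^ (D - 1) * E), h6]
  exact h5

/-- The same with indices in `Fin D`. -/
theorem mult_fin (D : ℕ) (t t' lo : Fin D → ℝ) (g E : ℝ) (hg : 0 < g) (hg1 : g ≤ 1)
    (hlo : ∀ j, |lo j| ≤ 1) (hsep : ∀ i j, i < j → lo i + 2 * g ≤ lo j)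
    (ht : ∀ i, lo i ≤ t i ∧ t i ≤ lo i + g) (ht' : ∀ i, lo i ≤ t' i ∧ t' i ≤ lo i + g)
    (h : ∀ m, 1 ≤ m → m ≤ D → |∑ i, (t i ^ m - t' i ^ m)| ≤ E) (i : Fin D) :
    |t i - t' i| ≤ (8 / g) ^ (D - 1) * E := by
  have hD : 1 ≤ D := i.pos
  let ex : (Fin D → ℝ) → ℕ → ℝ := fun u j => if hj : j < D then u ⟨j, hj⟩ else 0
  have hex : ∀ (u : Fin D → ℝ) (j : Fin D), ex u j = u j := fun u j => by simp [ex, j.2]
  have hex' : ∀ (u : Fin D → ℝ) (j : ℕ) (hj : j < D), ex u j = u ⟨j, hj⟩ :=
    fun u j hj => by simp [ex, hj]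
  have key := mult_nat D hD (ex t) (ex t') (ex lo) g E hg hg1
    (fun j hj => by rw [hex' lo j hj]; exact hlo _)
    (fun a b hab hb => by
      rw [hex' lo a (hab.trans hb), hex' lo b hb]
      exact hsep _ _ (Fin.mk_lt_mk.2 hab))
    (fun j hj => by rw [hex' lo j hj, hex' t j hj]; exact ht _)
    (fun j hj => by rw [hex' lo j hj, hex' t' j hj]; exact ht' _)
    (fun m h1 h2 => by
      rw [← Fin.sum_univ_eq_sum_range (fun j => ex t j ^ m - ex t' j ^ m) D]
      simp only [hex]
      exact h m h1 h2)
  refine le_trans ?_ key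
  have := single_le_sum (f := fun j => |ex t j - ex t' j|) (fun j _ => abs_nonneg _)
    (mem_range.2 i.2)
  simpa only [hex] using this

end Pool.Agent.Lib.SCX
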